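import Mathlib
import Pool.Agent.H88.NWco
import Pool.Agent.H88.NWcoDefs

open Pool.Agent.H88.NWco

theorem Pool.Agent.Results.MP_9100ee_an.Yes.result
    {H : Type} [NormedAddCommGroup H] [InnerProductSpace ℂ H] [CompleteSpace H]
    (e : HilbertBasis ℕ ℂ H)
    (a b c d : ℂ) (hdet : a * d - b * c ≠ 0) (hden : ∀ z : ℂ, ‖z‖ < 1 → c * z + d ≠ 0)
    (hself : ∀ z : ℂ, ‖z‖ < 1 → ‖(a * z + b) / (c * z + d)‖ < 1) (ψ : ℂ → ℂ)
    (W : H →L[ℂ] H) (hW : IsWCO e W ψ fun z => (a * z + b) / (c * z + d))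
    (hN : IsNormalOp W) :
    ∃ C : ℂ, ∀ z : ℂ, ‖z‖ < 1 → ψ z = C / (c * z + d) := by
  let U : H →L[ℂ] Pool.Agent.H88.H2.L2 := e.repr.toContinuousLinearEquiv.toContinuousLinearMap
  let U' : Pool.Agent.H88.H2.L2 →L[ℂ] H :=
    e.repr.symm.toContinuousLinearEquiv.toContinuousLinearMap
  have hU : ∀ f, U f = e.repr f := fun _ => rfl
  have hU' : ∀ f, U' f = e.repr.symm f := fun _ => rfl
  have hev : ∀ (f : H) z, ev e f z = Pool.Agent.H88.PS.ps (e.repr f) z := by
    intro f z
    simp only [ev, Pool.Agent.H88.PS.ps, HilbertBasis.repr_apply_apply]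
  have hadj : U ∘L ContinuousLinearMap.adjoint W ∘L U' =
      ContinuousLinearMap.adjoint (U ∘L W ∘L U') := by
    rw [ContinuousLinearMap.eq_adjoint_iff]
    intro x y
    simp only [ContinuousLinearMap.comp_apply, hU, hU']
    rw [← e.repr.symm.inner_map_map, ← e.repr.symm.inner_map_map x,
      LinearIsometryEquiv.symm_apply_apply, LinearIsometryEquiv.symm_apply_apply,
      ContinuousLinearMap.adjoint_inner_left]
  refine main a b c d hdet hden hself ψ (U ∘L W ∘L U') (fun f z hz => ?_) ?_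
  · have := hW (e.repr.symm f) z hz
    rw [hev, hev, LinearIsometryEquiv.apply_symm_apply] at this
    exact this
  · rw [← hadj]
    refine ContinuousLinearMap.ext fun f => ?_
    simp only [ContinuousLinearMap.comp_apply, hU, hU', LinearIsometryEquiv.symm_apply_apply]
    rw [hN]
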